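import Pool.Agent.W757.BL.Defs

/-!
# Project BL: no edge of a polygon of greatest perimeter jumps over the lowest or highest point
-/

set_option autoImplicit false

namespace Pool.Agent.W935.BL.Jmp

open Set Filter Topology Pool.Agent.W757.BL

/-- an edge which jumps over the minimum loses variation -/
theorem jump (w V : ℝ → ℝ) (L b0 : ℝ) (hw : ∀ s, w (s + L) = w s)
    (hpos : ∀ s, b0 < s → s < b0 + L → w b0 < w s) (hcont : Continuous w)
    (hV : ∀ s s2, s ≤ s2 → |w s2 - w s| ≤ V s2 - V s) (ε : ℝ) (hε : 0 < ε) :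
    ∃ κ > 0, ∀ s s2, s ≤ b0 - ε → b0 + ε ≤ s2 → s2 < s + L →
      |w s2 - w s| ≤ V s2 - V s - 2 * κ := by
  obtain ⟨κ, hκ, hκ2⟩ : ∃ κ > 0, ∀ s ∈ Icc (b0 + ε) (b0 + L - ε), κ ≤ w s - w b0 := by
    rcases (Icc (b0 + ε) (b0 + L - ε)).eq_empty_or_nonempty with h | h
    · exact ⟨1, one_pos, fun s hs => by rw [h] at hs; exact absurd hs (notMem_empty _)⟩
    · obtain ⟨z, hz, hz2⟩ := isCompact_Icc.exists_isMinOn h hcont.continuousOn
      refine ⟨w z - w b0, ?_, fun s hs => ?_⟩
      · have := hpos z (by linarith [hz.1]) (by linarith [hz.2])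
        simpa using this
      · have := hz2 hs
        simp only [mem_ofPred_eq] at this
        linarith
  refine ⟨κ, hκ, fun s s2 hs hs2 hss => ?_⟩
  have h1 := hκ2 s2 ⟨hs2, by linarith⟩
  have h2 := hκ2 (s + L) ⟨by linarith, by linarith⟩
  rw [hw] at h2
  have h3 := hV s b0 (by linarith)
  have h4 := hV b0 s2 (by linarith)
  have h5 := le_abs_self (w s2 - w b0)
  have h6 := neg_abs_le (w b0 - w s)
  rw [abs_le]
  constructor <;> linarith

theorem hh_le (t : ℝ) (ht : 0 < t) (x y : ℝ → ℝ) (a b : ℝ) :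
    hh (fun s => t * x s) y a b ≤ t * |x b - x a| + |y b - y a| := by
  unfold hh
  rw [Real.sqrt_le_left (by positivity)]
  have h1 : (t * x b - t * x a) ^ 2 = (t * |x b - x a|) ^ 2 := by
    rw [mul_pow, sq_abs]
    ring
  have h2 : 0 ≤ t * |x b - x a| := by positivity
  rw [h1, ← sq_abs (y b - y a)]
  nlinarith [abs_nonneg (y b - y a)]

theorem hh_ge (x y : ℝ → ℝ) (a b : ℝ) : |y b - y a| ≤ hh x y a b := by
  unfold hh
  rw [← Real.sqrt_sq_eq_abs]
  exact Real.sqrt_le_sqrt (by nlinarith [sq_nonneg (x b - x a)])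

/-- upper bound for the perimeter of an orbit with a jump -/
theorem upper (x y : ℝ → ℝ) (L : ℝ) (V : ℝ → ℝ) (h M κ t : ℝ) (n : ℕ) (hn : 2 ≤ n)
    (hV : ∀ s s2, s ≤ s2 → |y s2 - y s| ≤ V s2 - V s) (hVL : ∀ s, V (s + L) = V s + 2 * h)
    (hM : ∀ s s2, |x s2 - x s| ≤ M) (ht : 0 < t) (f : ℝ → ℝ) (hlo : ∀ s, s < f s)
    (hcyc : ∀ s, f^[n] s = s + L) (s : ℝ) (hs : |y (f s) - y s| ≤ V (f s) - V s - 2 * κ) :
    SS (fun s => t * x s) y n (fun i => f^[i] s) ≤ 2 * h - 2 * κ + t * (n * M) := by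
  unfold SS
  have h1 : ∑ i ∈ Finset.range n, hh (fun s => t * x s) y (f^[i] s) (f^[i + 1] s) ≤
      ∑ i ∈ Finset.range n, (t * M + |y (f^[i + 1] s) - y (f^[i] s)|) := by
    refine Finset.sum_le_sum fun i _ => (hh_le t ht x y _ _).trans ?_
    have := mul_le_mul_of_nonneg_left (hM (f^[i] s) (f^[i + 1] s)) ht.le
    linarith
  refine h1.trans ?_
  rw [Finset.sum_add_distrib, Finset.sum_const, Finset.card_range, nsmul_eq_mul]
  obtain ⟨k, rfl⟩ : ∃ k, n = k + 1 := ⟨n - 1, by omega⟩
  rw [Finset.sum_range_succ']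
  have h2 : ∑ i ∈ Finset.range k, |y (f^[i + 1 + 1] s) - y (f^[i + 1] s)| ≤
      ∑ i ∈ Finset.range k, (V (f^[i + 1 + 1] s) - V (f^[i + 1] s)) := by
    refine Finset.sum_le_sum fun i _ => hV _ _ ?_
    rw [Function.iterate_succ_apply' f (i + 1)]
    exact (hlo _).le
  rw [Finset.sum_range_sub (fun i => V (f^[i + 1] s)) k] at h2
  rw [hcyc, hVL] at h2
  have h3 : |y (f^[0 + 1] s) - y (f^[0] s)| ≤ V (f s) - V s - 2 * κ := hs
  have h4 : f^[0 + 1] s = f s := rfl
  rw [h4] at h2
  push_cast at *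
  nlinarith

/-- the polygon with vertices at the lowest and at the highest point -/
theorem lower (x y : ℝ → ℝ) (L b e : ℝ) (n : ℕ) (hn : 2 ≤ n) (hbe : b < e) (heb : e < b + L)
    (hy : ∀ s, y (s + L) = y s) (m : ℝ) (hm : ∀ c, Pol L n c → SS x y n c ≤ m) :
    2 * (y e - y b) ≤ m := by
  obtain ⟨c0, hc0⟩ : ∃ c0 : ℕ → ℝ, c0 = fun j : ℕ => if j = 0 then b else
    e + ((j : ℝ) - 1) * ((b + L - e) / ((n : ℝ) - 1)) := ⟨_, rfl⟩
  have hn1 : (1 : ℝ) ≤ (n : ℝ) - 1 := by
    have : (2 : ℝ) ≤ n := by exact_mod_cast hn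
    linarith
  have hq : 0 < (b + L - e) / ((n : ℝ) - 1) := div_pos (by linarith) (by linarith)
  have hc0n : c0 n = b + L := by
    rw [hc0]
    simp only
    rw [if_neg (by omega)]
    field_simp
    ring
  have hc01 : c0 1 = e := by
    rw [hc0]
    simp
  have hc00 : c0 0 = b := by
    rw [hc0]
    simp
  have hmono0 : ∀ j, c0 j < c0 (j + 1) := by
    intro j
    rcases Nat.eq_zero_or_pos j with h | h
    · subst h
      rw [hc00]
      rw [zero_add, hc01]
      exact hbe
    · rw [hc0]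
      simp only
      rw [if_neg (by omega), if_neg (by omega)]
      push_cast
      nlinarith
  obtain ⟨c, hc⟩ : ∃ c : ℕ → ℝ, c = fun i : ℕ => c0 (i % n) + ((i / n : ℕ) : ℝ) * L := ⟨_, rfl⟩
  have hcj : ∀ j, j ≤ n → c j = c0 j := by
    intro j hj
    rcases hj.lt_or_eq with h | h
    · rw [hc]
      simp only
      rw [Nat.mod_eq_of_lt h, Nat.div_eq_of_lt h]
      simp
    · rw [h, hc]
      simp only
      rw [Nat.mod_self, Nat.div_self (by omega), hc00, hc0n]
      simp
  have hper : ∀ i, c (i + n) = c i + L := by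
    intro i
    rw [hc]
    simp only
    rw [Nat.add_mod_right, Nat.add_div_right _ (by omega)]
    push_cast
    ring
  have hmono : ∀ i, c i < c (i + 1) := by
    intro i
    have h1 : i = i % n + n * (i / n) := (Nat.mod_add_div i n).symm
    have h2 : ∀ q j, c (j + n * q) = c j + q * L := by
      intro q
      induction q with
      | zero => intro j; simp
      | succ q ih =>
        intro j
        have : j + n * (q + 1) = (j + n * q) + n := by ring
        rw [this, hper, ih]
        push_cast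
        ring
    have h3 : i % n < n := Nat.mod_lt _ (by omega)
    have h4 : c i = c (i % n) + ((i / n : ℕ) : ℝ) * L := by
      conv_lhs => rw [h1]
      rw [h2]
    have h5 : c (i + 1) = c (i % n + 1) + ((i / n : ℕ) : ℝ) * L := by
      have : i + 1 = (i % n + 1) + n * (i / n) := by omega
      conv_lhs => rw [this]
      rw [h2]
    rw [h4, h5, hcj _ h3.le, hcj _ h3]
    have := hmono0 (i % n)
    linarith
  refine le_trans ?_ (hm c ⟨hmono, hper⟩)
  unfold SS
  obtain ⟨k, rfl⟩ : ∃ k, n = k + 1 := ⟨n - 1, by omega⟩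
  rw [Finset.sum_range_succ']
  have h6 : ∑ i ∈ Finset.range k, (y (c (i + 1)) - y (c (i + 1 + 1))) ≤
      ∑ i ∈ Finset.range k, hh x y (c (i + 1)) (c (i + 1 + 1)) := by
    refine Finset.sum_le_sum fun i _ => le_trans ?_ (hh_ge x y _ _)
    rw [abs_sub_comm]
    exact le_abs_self _
  have h7 : ∑ i ∈ Finset.range k, (y (c (i + 1)) - y (c (i + 1 + 1))) =
      y (c (0 + 1)) - y (c (k + 1)) :=
    Finset.sum_range_sub' (fun i => y (c (i + 1))) k
  have h8 := le_trans (le_abs_self _) (hh_ge x y (c 0) (c (0 + 1)))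
  rw [h7, hcj (k + 1) le_rfl, hc0n, hy] at h6
  rw [hcj 0 (by omega), hc00] at h8
  rw [hcj (0 + 1) (by omega), zero_add, hc01] at h6 h8
  rw [hcj 0 (by omega), hc00, hcj (0 + 1) (by omega), zero_add, hc01]
  linarith

theorem main : S_JMP := by
  intro x y x' y' L n b e hC hE hn ε hε
  have hL := hC.L0
  have hxc : Continuous x := continuous_iff_continuousAt.2 fun s => (hC.dx s).continuousAt
  have hyc : Continuous y := continuous_iff_continuousAt.2 fun s => (hC.dy s).continuousAt
  -- periodicity of the derivative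
  have hy'p : ∀ s, y' (s + L) = y' s := by
    intro s
    have h1 : HasDerivAt (fun s => y (s + L)) (y' (s + L)) s := by
      simpa using (hC.dy (s + L)).comp_add_const s L
    have h2 : (fun s => y (s + L)) = y := funext hC.py
    rw [h2] at h1
    exact h1.unique (hC.dy s)
  -- monotonicity of y
  have hmono : StrictMonoOn y (Icc b e) := by
    refine strictMonoOn_of_deriv_pos (convex_Icc b e) hyc.continuousOn fun s hs => ?_
    rw [interior_Icc] at hs
    rw [(hC.dy s).deriv]
    exact hE.up s hs.1 hs.2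
  have hanti : StrictAntiOn y (Icc e (b + L)) := by
    refine strictAntiOn_of_deriv_neg (convex_Icc e (b + L)) hyc.continuousOn fun s hs => ?_
    rw [interior_Icc] at hs
    rw [(hC.dy s).deriv]
    exact hE.dn s hs.1 hs.2
  have hbe := hE.be
  have heb := hE.eb
  have hposb : ∀ s, b < s → s < b + L → y b < y s := by
    intro s h1 h2
    rcases le_or_gt s e with h3 | h3
    · exact hmono ⟨le_rfl, hbe.le⟩ ⟨h1.le, h3⟩ h1
    · rw [← hC.py b]
      exact hanti ⟨h3.le, h2.le⟩ ⟨heb.le, le_rfl⟩ h2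
  have hpose : ∀ s, e < s → s < e + L → y s < y e := by
    intro s h1 h2
    rcases le_or_gt s (b + L) with h3 | h3
    · exact hanti ⟨le_rfl, heb.le⟩ ⟨h1.le, h3⟩ h1
    · have h4 : y s = y (s - L) := by
        rw [← hC.py (s - L)]
        congr 1
        ring
      rw [h4]
      exact hmono ⟨by linarith, by linarith⟩ ⟨hbe.le, le_rfl⟩ (by linarith)
  -- the variation
  obtain ⟨V, hVd⟩ : ∃ V : ℝ → ℝ, V = fun s => ∫ τ in b..s, |y' τ| := ⟨_, rfl⟩
  have hint : ∀ a c, IntervalIntegrable (fun τ => |y' τ|) MeasureTheory.volume a c := fun a c =>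
    hC.cy.abs.intervalIntegrable a c
  have hVsub : ∀ s s2, V s2 - V s = ∫ τ in s..s2, |y' τ| := by
    intro s s2
    rw [hVd]
    simp only
    rw [intervalIntegral.integral_interval_sub_left (hint _ _) (hint _ _)]
  have hftc : ∀ s s2, ∫ τ in s..s2, y' τ = y s2 - y s := fun s s2 =>
    intervalIntegral.integral_eq_sub_of_hasDerivAt (fun τ _ => hC.dy τ)
      (hC.cy.intervalIntegrable _ _)
  have hV : ∀ s s2, s ≤ s2 → |y s2 - y s| ≤ V s2 - V s := by
    intro s s2 h
    rw [hVsub, ← hftc]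
    exact intervalIntegral.abs_integral_le_integral_abs h
  have hVL : ∀ s, V (s + L) = V s + 2 * (y e - y b) := by
    intro s
    have h1 : V (s + L) - V s = V (b + L) - V b := by
      rw [hVsub, hVsub]
      exact Function.Periodic.intervalIntegral_add_eq (f := fun τ => |y' τ|)
        (fun τ => by simp only [hy'p]) s b
    have h2 : V e - V b = y e - y b := by
      rw [hVsub, ← hftc]
      refine intervalIntegral.integral_congr fun τ hτ => ?_
      rw [uIcc_of_le hbe.le] at hτ
      refine abs_of_nonneg ?_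
      rcases hτ.1.eq_or_lt with h | h
      · rw [← h, hE.db]
      · rcases hτ.2.eq_or_lt with h' | h'
        · rw [h', hE.de]
        · exact (hE.up τ h h').le
    have h3 : V (b + L) - V e = y e - y b := by
      have h4 : V (b + L) - V e = ∫ τ in e..(b + L), -y' τ := by
        rw [hVsub]
        refine intervalIntegral.integral_congr fun τ hτ => ?_
        rw [uIcc_of_le heb.le] at hτ
        refine abs_of_nonpos ?_
        rcases hτ.1.eq_or_lt with h | h
        · rw [← h, hE.de]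
        · rcases hτ.2.eq_or_lt with h' | h'
          · rw [h', hy'p, hE.db]
          · exact (hE.dn τ h h').le
      rw [h4, intervalIntegral.integral_neg, hftc, hC.py]
      ring
    linarith
  -- bound for x
  obtain ⟨M, hM⟩ : ∃ M, ∀ s s2, |x s2 - x s| ≤ M := by
    obtain ⟨K, hK⟩ := isCompact_Icc.exists_bound_of_continuousOn (hxc.continuousOn (s := Icc 0 L))
    have hK2 : ∀ s, |x s| ≤ K := by
      intro s
      obtain ⟨s', hs', h⟩ := Function.Periodic.exists_mem_Ico₀ (f := x) (c := L) hC.px hL s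
      rw [h]
      exact hK s' ⟨hs'.1, hs'.2.le⟩
    refine ⟨K + K, fun s s2 => ?_⟩
    exact (abs_sub _ _).trans (add_le_add (hK2 s2) (hK2 s))
  have hM0 : 0 ≤ M := (abs_nonneg _).trans (hM 0 0)
  obtain ⟨κ1, hκ1, hj1⟩ := jump y V L b hC.py hposb hyc hV ε hε
  obtain ⟨κ2, hκ2, hj2⟩ := jump (fun s => -y s) V L e (fun s => by rw [hC.py])
    (fun s h1 h2 => neg_lt_neg (hpose s h1 h2)) hyc.neg (fun s s2 h => by
      have := hV s s2 h
      rwa [show -y s2 - -y s = -(y s2 - y s) by ring, abs_neg]) ε hε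
  have hnM : 0 < (n : ℝ) * M + 1 := by positivity
  refine ⟨min κ1 κ2 / (n * M + 1), by positivity, fun t ht htδ m f hF => ?_⟩
  have hlow := lower (fun s => t * x s) y L b e n hn hbe heb hC.py m hF.le
  rw [lt_div_iff₀ hnM] at htδ
  have ht1 : t * (n * M) < κ1 := by
    have := min_le_left κ1 κ2
    nlinarith
  have ht2 : t * (n * M) < κ2 := by
    have := min_le_right κ1 κ2
    nlinarith
  refine ⟨fun s hs => ?_, fun s hs => ?_⟩
  · by_contra hcon
    push Not at hcon
    have h1 := upper x y L V (y e - y b) M κ1 t n hn hV hVL hM ht f hF.lo hF.cyc s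
      (hj1 s (f s) hs hcon (hF.hi s))
    rw [hF.max] at h1
    linarith
  · by_contra hcon
    push Not at hcon
    have h0 := hj2 s (f s) hs hcon (hF.hi s)
    rw [show -y (f s) - -y s = -(y (f s) - y s) by ring, abs_neg] at h0
    have h1 := upper x y L V (y e - y b) M κ2 t n hn hV hVL hM ht f hF.lo hF.cyc s h0
    rw [hF.max] at h1
    linarith

theorem t_JMP (_hCF : S_CF) : S_JMP := main

end Pool.Agent.W935.BL.Jmp
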